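import Pool.Agent.Y98.SD.Three

/-!
# Order complexes of finite partially ordered sets
-/

set_option autoImplicit false
set_option linter.unusedSectionVars false

open MvPolynomial RingTheory.Sequence Pool.Agent.Results.MP_28b0d6_al.SubdivisionFailsWLP

namespace Pool.Agent.Y98.SD

/-- The order complex of a partially ordered set: its faces are the nonempty finite chains. For the
set of the closed cells of a regular CW complex, ordered by inclusion, this is the barycentric
subdivision. -/
def orderComplex (P : Type*) [PartialOrder P] : AbstractSimplicialComplex P where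
  faces := {s | s.Nonempty ∧ ∀ a ∈ s, ∀ b ∈ s, a ≤ b ∨ b ≤ a}
  isRelLowerSet_faces := by
    rintro s ⟨hs, hc⟩
    refine ⟨hs, fun t hts ht => ⟨ht, fun a ha b hb => hc a (hts ha) b (hts hb)⟩⟩
  singleton_mem := by
    intro v
    refine ⟨Finset.singleton_nonempty v, ?_⟩
    intro a ha b hb
    rw [Finset.mem_singleton] at ha hb
    subst ha; subst hb
    exact Or.inl le_rfl

/-- The number of pairs `x < y` of elements of `P` with `y` outside `D`. -/
noncomputable def pairsOutside {P : Type*} [PartialOrder P] (D : Set P) : ℕ :=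
  {p : P × P | p.1 < p.2 ∧ p.2 ∉ D}.ncard

variable {P : Type*} [PartialOrder P] [Fintype P] [DecidableEq P]

theorem pairs_le : pairsOutside (∅ : Set P) ≤ edges (orderComplex P) := by
  unfold pairsOutside edges
  refine Set.ncard_le_ncard_of_injOn (fun p : P × P => ({p.1, p.2} : Finset P)) ?_ ?_
    (Set.toFinite _)
  · rintro ⟨x, y⟩ ⟨hxy, -⟩
    replace hxy : x < y := hxy
    refine ⟨⟨by simp, ?_⟩, Finset.card_pair hxy.ne⟩
    intro a ha b hb
    simp only [Finset.mem_insert, Finset.mem_singleton] at ha hb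
    rcases ha with rfl | rfl <;> rcases hb with rfl | rfl
    · exact Or.inl le_rfl
    · exact Or.inl hxy.le
    · exact Or.inr hxy.le
    · exact Or.inl le_rfl
  · rintro ⟨x, y⟩ ⟨hxy, -⟩ ⟨x', y'⟩ ⟨hxy', -⟩ h
    replace hxy : x < y := hxy
    replace hxy' : x' < y' := hxy'
    have h' : ({x, y} : Finset P) = {x', y'} := h
    have hx : x ∈ ({x', y'} : Finset P) := by rw [← h']; simp
    have hy : y ∈ ({x', y'} : Finset P) := by rw [← h']; simp
    simp only [Finset.mem_insert, Finset.mem_singleton] at hx hy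
    rcases hx with rfl | rfl
    · rcases hy with rfl | rfl
      · exact absurd hxy (lt_irrefl _)
      · rfl
    · rcases hy with rfl | rfl
      · exact absurd (hxy.trans hxy') (lt_irrefl _)
      · exact absurd hxy (lt_irrefl _)

theorem meeting_le {D : Set P} (hD : IsLowerSet D) {U : Finset P} (hU : ∀ x, x ∈ U ↔ x ∉ D) :
    edgesMeeting (orderComplex P) U ≤ pairsOutside D := by
  have h1 : {s : Finset P | s ∈ (orderComplex P).faces ∧ s.card = 2 ∧ ∃ u ∈ U, u ∈ s} ⊆
      (fun p : P × P => ({p.1, p.2} : Finset P)) '' {p : P × P | p.1 < p.2 ∧ p.2 ∉ D} := by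
    rintro e ⟨⟨-, hch⟩, he2, u, hu, hue⟩
    obtain ⟨x, y, hxy, rfl⟩ := Finset.card_eq_two.1 he2
    have key : ∀ x y : P, x < y → (x ∈ U ∨ y ∈ U) → ({x, y} : Finset P) ∈
        (fun p : P × P => ({p.1, p.2} : Finset P)) '' {p : P × P | p.1 < p.2 ∧ p.2 ∉ D} := by
      intro x y hlt hor
      refine ⟨(x, y), ⟨hlt, ?_⟩, rfl⟩
      rcases hor with h | h
      · rw [hU] at h
        exact fun hy => h (hD hlt.le hy)
      · exact (hU y).1 h
    have hor : x ∈ U ∨ y ∈ U := by
      simp only [Finset.mem_insert, Finset.mem_singleton] at hue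
      rcases hue with rfl | rfl
      · exact Or.inl hu
      · exact Or.inr hu
    rcases hch x (by simp) y (by simp) with h | h
    · exact key x y (h.lt_of_ne hxy) hor
    · rw [Finset.pair_comm]
      exact key y x (h.lt_of_ne hxy.symm) hor.symm
  exact (Set.ncard_le_ncard h1 (Set.toFinite _)).trans (Set.ncard_image_le (Set.toFinite _))

theorem flag_disjoint {D : Set P} {U : Finset P} (hU : ∀ x, x ∈ U ↔ x ∉ D) {a b c : P}
    (ha : a ∈ D) (hb : b ∈ D) (hc : c ∈ D) (hab : a < b) (hbc : b < c) :
    ∃ F ∈ (orderComplex P).faces, F.card = 3 ∧ Disjoint F U := by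
  refine ⟨{a, b, c}, ⟨by simp, ?_⟩, ?_, ?_⟩
  · intro x hx y hy
    simp only [Finset.mem_insert, Finset.mem_singleton] at hx hy
    rcases hx with rfl | rfl | rfl <;> rcases hy with rfl | rfl | rfl
    · exact Or.inl le_rfl
    · exact Or.inl hab.le
    · exact Or.inl (hab.trans hbc).le
    · exact Or.inr hab.le
    · exact Or.inl le_rfl
    · exact Or.inl hbc.le
    · exact Or.inr (hab.trans hbc).le
    · exact Or.inr hbc.le
    · exact Or.inl le_rfl
  · rw [Finset.card_eq_three]
    exact ⟨a, b, c, hab.ne, (hab.trans hbc).ne, hbc.ne, rfl⟩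
  · rw [Finset.disjoint_left]
    intro x hx hx'
    rw [hU] at hx'
    simp only [Finset.mem_insert, Finset.mem_singleton] at hx
    rcases hx with rfl | rfl | rfl
    · exact hx' ha
    · exact hx' hb
    · exact hx' hc

end Pool.Agent.Y98.SD
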