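import Pool.Agent.Y98.SD.Three

/-!
# The number of edges of the barycentric subdivision
-/

set_option autoImplicit false
set_option linter.unusedSectionVars false

open Pool.Agent.Results.MP_28b0d6_al.SubdivisionFailsWLP

namespace Pool.Agent.Y98.SD

/-- The number of faces of `Γ` of dimension `i`. -/
noncomputable def fnum {V : Type*} (Γ : AbstractSimplicialComplex V) (i : ℕ) : ℕ :=
  {s : Finset V | s ∈ Γ.faces ∧ s.card = i + 1}.ncard

variable {V : Type*} [DecidableEq V] {Γ : AbstractSimplicialComplex V} [Fintype Γ.faces]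

theorem fnum_eq (i : ℕ) :
    fnum Γ i = ∑ F : Γ.faces, if (F : Finset V).card = i + 1 then 1 else 0 := by
  classical
  have h1 : {s : Finset V | s ∈ Γ.faces ∧ s.card = i + 1} = Subtype.val ''
      ((Finset.univ.filter fun F : Γ.faces => (F : Finset V).card = i + 1 :
        Finset Γ.faces) : Set Γ.faces) := by
    ext s
    simp only [Set.mem_setOf_eq, Finset.coe_filter, Finset.mem_univ, true_and, Set.mem_image]
    constructor
    · rintro ⟨h1, h2⟩
      exact ⟨⟨s, h1⟩, h2, rfl⟩
    · rintro ⟨F, h1, rfl⟩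
      exact ⟨F.2, h1⟩
  rw [fnum, h1, Set.ncard_image_of_injective _ Subtype.val_injective, Set.ncard_coe_finset,
    Finset.card_filter]

/-- The proper faces of a face. -/
def proper (F : Γ.faces) : Finset Γ.faces :=
  Finset.univ.filter fun G : Γ.faces => (G : Finset V) ⊂ F

theorem card_proper (F : Γ.faces) : (proper F).card = 2 ^ (F : Finset V).card - 2 := by
  have h1 : (proper F).image Subtype.val = (F : Finset V).ssubsets.erase ∅ := by
    ext s
    simp only [proper, Finset.mem_image, Finset.mem_filter, Finset.mem_univ, true_and,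
      Finset.mem_erase, Finset.mem_ssubsets]
    constructor
    · rintro ⟨G, hG, rfl⟩
      exact ⟨(Γ.isRelLowerSet_faces G.2).1.ne_empty, hG⟩
    · rintro ⟨h1, h2⟩
      exact ⟨⟨s, (Γ.isRelLowerSet_faces F.2).2 h2.1 (Finset.nonempty_iff_ne_empty.2 h1)⟩, h2, rfl⟩
  have h2 := Finset.card_image_of_injective (proper F) Subtype.val_injective
  rw [h1, Finset.card_erase_of_mem, Finset.ssubsets, Finset.card_erase_of_mem,
    Finset.card_powerset] at h2
  · omega
  · exact Finset.mem_powerset_self _
  · rw [Finset.mem_ssubsets]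
    exact (Finset.empty_subset _).ssubset_of_ne (Γ.isRelLowerSet_faces F.2).1.ne_empty.symm

theorem edges_ge : ∑ F : Γ.faces, (2 ^ (F : Finset V).card - 2) ≤ edges (sd Γ) := by
  classical
  have h1 : (Finset.univ.sigma fun F : Γ.faces => proper F).card =
      ∑ F : Γ.faces, (2 ^ (F : Finset V).card - 2) := by
    rw [Finset.card_sigma]
    exact Finset.sum_congr rfl fun F _ => card_proper F
  rw [← h1, ← Set.ncard_coe_finset]
  unfold edges
  refine Set.ncard_le_ncard_of_injOn (fun p : (_ : Γ.faces) × Γ.faces =>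
    ({p.2, p.1} : Finset Γ.faces)) ?_ ?_ (Set.toFinite _)
  · rintro ⟨F, G⟩ hp
    have hG : (G : Finset V) ⊂ F := by
      have := (Finset.mem_sigma.1 (Finset.mem_coe.1 hp)).2
      exact (Finset.mem_filter.1 this).2
    have hne : G ≠ F := fun h => hG.ne (congrArg Subtype.val h)
    refine ⟨⟨by simp, ?_⟩, Finset.card_pair hne⟩
    intro x hx y hy
    simp only [Finset.mem_insert, Finset.mem_singleton] at hx hy
    rcases hx with rfl | rfl <;> rcases hy with rfl | rfl
    · exact Or.inl (Finset.Subset.refl _)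
    · exact Or.inl hG.1
    · exact Or.inr hG.1
    · exact Or.inl (Finset.Subset.refl _)
  · rintro ⟨F, G⟩ hp ⟨F', G'⟩ hp' h
    have hG : (G : Finset V) ⊂ F := by
      have := (Finset.mem_sigma.1 (Finset.mem_coe.1 hp)).2
      exact (Finset.mem_filter.1 this).2
    have hG' : (G' : Finset V) ⊂ F' := by
      have := (Finset.mem_sigma.1 (Finset.mem_coe.1 hp')).2
      exact (Finset.mem_filter.1 this).2
    have h' : ({G, F} : Finset Γ.faces) = {G', F'} := h
    have h2 : G = G' ∧ F = F' := by
      have hGm : G ∈ ({G', F'} : Finset Γ.faces) := by rw [← h']; simp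
      have hFm : F ∈ ({G', F'} : Finset Γ.faces) := by rw [← h']; simp
      simp only [Finset.mem_insert, Finset.mem_singleton] at hGm hFm
      rcases hGm with rfl | rfl
      · rcases hFm with rfl | rfl
        · exact absurd rfl hG.ne
        · exact ⟨rfl, rfl⟩
      · rcases hFm with rfl | rfl
        · exact absurd (hG.trans hG') (lt_irrefl _)
        · exact absurd rfl hG.ne
    obtain ⟨rfl, rfl⟩ := h2
    rfl

/-- The inequality between the numbers `h₁` and `h₂` of the barycentric subdivision of a complex of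
dimension two, in terms of the numbers of faces of the complex. -/
theorem h_lt (hd : ∀ s ∈ Γ.faces, s.card ≤ 3)
    (h : 3 * fnum Γ 0 + fnum Γ 1 < 3 * fnum Γ 2 + 6) :
    3 * Fintype.card Γ.faces < edges (sd Γ) + 6 := by
  have h1 := edges_ge (Γ := Γ)
  have hc : ∀ F : Γ.faces, (F : Finset V).card = 1 ∨ (F : Finset V).card = 2 ∨
      (F : Finset V).card = 3 := by
    intro F
    have h2 := hd _ F.2
    have h3 := Finset.card_pos.2 (Γ.isRelLowerSet_faces F.2).1
    omega
  have h2 : 2 * fnum Γ 1 + 6 * fnum Γ 2 ≤ ∑ F : Γ.faces, (2 ^ (F : Finset V).card - 2) := by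
    rw [fnum_eq, fnum_eq, Finset.mul_sum, Finset.mul_sum, ← Finset.sum_add_distrib]
    refine Finset.sum_le_sum fun F _ => ?_
    rcases hc F with h | h | h <;> simp [h]
  have h3 : Fintype.card Γ.faces ≤ fnum Γ 0 + fnum Γ 1 + fnum Γ 2 := by
    rw [fnum_eq, fnum_eq, fnum_eq, ← Finset.sum_add_distrib, ← Finset.sum_add_distrib,
      ← Finset.card_univ, Finset.card_eq_sum_ones]
    refine Finset.sum_le_sum fun F _ => ?_
    rcases hc F with h | h | h <;> simp [h]
  omega

end Pool.Agent.Y98.SD
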