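import Pool.Agent.Y98.SD.Three

/-!
# Free vertices
-/

set_option autoImplicit false
set_option linter.unusedSectionVars false

open MvPolynomial RingTheory.Sequence Pool.Agent.Results.MP_28b0d6_al.SubdivisionFailsWLP

namespace Pool.Agent.Y98.SD

/-- The vertex `v` of the simplicial complex `Γ` is free: it lies in a triangle `{a, b, v}` of `Γ`,
and all faces which contain it are faces of this triangle. -/
def HasFreeVertex {V : Type*} (Γ : AbstractSimplicialComplex V) : Prop :=
  ∃ s ∈ Γ.faces, s.card = 3 ∧ ∃ v ∈ s, ∀ t ∈ Γ.faces, v ∈ t → t ⊆ s

variable {V : Type*} [DecidableEq V] {Γ : AbstractSimplicialComplex V}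

theorem sub_cases {a b v : V} {w : Finset V} (hw : w ⊆ {a, b, v}) (hv : v ∈ w) :
    w = {v} ∨ w = {v, a} ∨ w = {v, b} ∨ w = {a, b, v} := by
  by_cases ha : a ∈ w
  · by_cases hb : b ∈ w
    · right; right; right
      refine Finset.Subset.antisymm hw ?_
      intro x hx
      simp only [Finset.mem_insert, Finset.mem_singleton] at hx
      rcases hx with rfl | rfl | rfl <;> assumption
    · right; left
      refine Finset.Subset.antisymm (fun x hx => ?_) ?_
      · have := hw hx
        simp only [Finset.mem_insert, Finset.mem_singleton] at this ⊢
        rcases this with rfl | rfl | rfl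
        · exact Or.inr rfl
        · exact absurd hx hb
        · exact Or.inl rfl
      · intro x hx
        simp only [Finset.mem_insert, Finset.mem_singleton] at hx
        rcases hx with rfl | rfl <;> assumption
  · by_cases hb : b ∈ w
    · right; right; left
      refine Finset.Subset.antisymm (fun x hx => ?_) ?_
      · have := hw hx
        simp only [Finset.mem_insert, Finset.mem_singleton] at this ⊢
        rcases this with rfl | rfl | rfl
        · exact absurd hx ha
        · exact Or.inr rfl
        · exact Or.inl rfl
      · intro x hx
        simp only [Finset.mem_insert, Finset.mem_singleton] at hx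
        rcases hx with rfl | rfl <;> assumption
    · left
      refine Finset.Subset.antisymm (fun x hx => ?_) ?_
      · have := hw hx
        simp only [Finset.mem_insert, Finset.mem_singleton] at this ⊢
        rcases this with rfl | rfl | rfl
        · exact absurd hx ha
        · exact absurd hx hb
        · rfl
      · intro x hx
        rw [Finset.mem_singleton] at hx
        rwa [hx]

theorem sub_pair {a v : V} {w : Finset V} (hw : w ⊆ {v, a}) (h0 : w.Nonempty) :
    w = {v} ∨ w = {a} ∨ w = {v, a} := by
  have hw' : ∀ x ∈ w, x = v ∨ x = a := fun x hx => by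
    have := hw hx
    simpa only [Finset.mem_insert, Finset.mem_singleton] using this
  by_cases hv : v ∈ w
  · by_cases ha : a ∈ w
    · right; right
      refine Finset.Subset.antisymm hw ?_
      intro x hx
      simp only [Finset.mem_insert, Finset.mem_singleton] at hx
      rcases hx with rfl | rfl <;> assumption
    · left
      refine Finset.eq_singleton_iff_unique_mem.2 ⟨hv, fun x hx => ?_⟩
      rcases hw' x hx with h | h
      · exact h
      · rw [h] at hx
        exact absurd hx ha
  · right; left
    obtain ⟨y, hy⟩ := h0
    have hya : ∀ x ∈ w, x = a := fun x hx => by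
      rcases hw' x hx with h | h
      · rw [h] at hx
        exact absurd hx hv
      · exact h
    refine Finset.eq_singleton_iff_unique_mem.2 ⟨?_, hya⟩
    rw [← hya y hy]
    exact hy

/-- A free vertex gives a sparse set with two elements. -/
theorem exists_sparse (h : HasFreeVertex Γ) : ∃ U : Finset Γ.faces,
    (∃ F ∈ (sd Γ).faces, F.card = 3 ∧ Disjoint F U) ∧ edgesMeeting (sd Γ) U < 3 * U.card := by
  classical
  obtain ⟨s, hs, hc, v, hv, hfree⟩ := h
  obtain ⟨a, b, hab, hsv⟩ : ∃ a b, a ≠ b ∧ s.erase v = {a, b} := by
    have h1 : (s.erase v).card = 2 := by rw [Finset.card_erase_of_mem hv, hc]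
    obtain ⟨a, b, hab, h2⟩ := Finset.card_eq_two.1 h1
    exact ⟨a, b, hab, h2⟩
  have hva : v ≠ a := by
    rintro rfl
    have : v ∈ s.erase v := by rw [hsv]; simp
    simp at this
  have hvb : v ≠ b := by
    rintro rfl
    have : v ∈ s.erase v := by rw [hsv]; simp
    simp at this
  have hs3 : s = {a, b, v} := by
    rw [← Finset.insert_erase hv, hsv]
    ext x
    simp only [Finset.mem_insert, Finset.mem_singleton]
    tauto
  subst hs3
  have face : ∀ w : Finset V, w ⊆ {a, b, v} → w.Nonempty → w ∈ Γ.faces := fun w hw h0 =>
    (Γ.isRelLowerSet_faces hs).2 hw h0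
  let pv : Γ.faces := ⟨{v}, face _ (by simp) (by simp)⟩
  let pa : Γ.faces := ⟨{a}, face _ (by simp) (by simp)⟩
  let pb : Γ.faces := ⟨{b}, face _ (by simp) (by simp)⟩
  let pva : Γ.faces := ⟨{v, a}, face _ (by
    intro x hx; simp only [Finset.mem_insert, Finset.mem_singleton] at hx ⊢; tauto) (by simp)⟩
  let pvb : Γ.faces := ⟨{v, b}, face _ (by
    intro x hx; simp only [Finset.mem_insert, Finset.mem_singleton] at hx ⊢; tauto) (by simp)⟩
  let t : Γ.faces := ⟨{a, b, v}, hs⟩
  have c1 : ({v, a} : Finset V).card = 2 := Finset.card_pair hva
  have c2 : ({v, b} : Finset V).card = 2 := Finset.card_pair hvb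
  have c3 : ({a, b, v} : Finset V).card = 3 := hc
  have n1 : pv ≠ pva := fun h => by
    have := congrArg (fun z : Γ.faces => (z : Finset V).card) h
    simp only [pv, pva, c1, Finset.card_singleton] at this
    omega
  refine ⟨{pv, pva}, ⟨{pb, pvb, t}, ?_, ?_, ?_⟩, ?_⟩
  · refine ⟨by simp, ?_⟩
    intro x hx y hy
    simp only [Finset.mem_insert, Finset.mem_singleton] at hx hy
    rcases hx with rfl | rfl | rfl <;> rcases hy with rfl | rfl | rfl
    · exact Or.inl (Finset.Subset.refl _)
    · left
      show ({b} : Finset V) ⊆ {v, b}
      simp
    · left
      show ({b} : Finset V) ⊆ {a, b, v}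
      simp
    · right
      show ({b} : Finset V) ⊆ {v, b}
      simp
    · exact Or.inl (Finset.Subset.refl _)
    · left
      show ({v, b} : Finset V) ⊆ {a, b, v}
      intro x hx; simp only [Finset.mem_insert, Finset.mem_singleton] at hx ⊢; tauto
    · right
      show ({b} : Finset V) ⊆ {a, b, v}
      simp
    · right
      show ({v, b} : Finset V) ⊆ {a, b, v}
      intro x hx; simp only [Finset.mem_insert, Finset.mem_singleton] at hx ⊢; tauto
    · exact Or.inl (Finset.Subset.refl _)
  · rw [Finset.card_eq_three]
    refine ⟨pb, pvb, t, ?_, ?_, ?_, rfl⟩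
    · intro h
      have := congrArg (fun z : Γ.faces => (z : Finset V).card) h
      simp only [pb, pvb, c2, Finset.card_singleton] at this
      omega
    · intro h
      have := congrArg (fun z : Γ.faces => (z : Finset V).card) h
      simp only [pb, t, c3, Finset.card_singleton] at this
      omega
    · intro h
      have := congrArg (fun z : Γ.faces => (z : Finset V).card) h
      simp only [pvb, t, c2, c3] at this
      omega
  · rw [Finset.disjoint_left]
    intro x hx hx'
    simp only [Finset.mem_insert, Finset.mem_singleton] at hx hx'
    have hb : b ∈ (x : Finset V) := by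
      rcases hx with rfl | rfl | rfl
      · show b ∈ ({b} : Finset V)
        simp
      · show b ∈ ({v, b} : Finset V)
        simp
      · show b ∈ ({a, b, v} : Finset V)
        simp
    rcases hx' with rfl | rfl
    · have : b ∈ ({v} : Finset V) := hb
      rw [Finset.mem_singleton] at this
      exact hvb this.symm
    · have : b ∈ ({v, a} : Finset V) := hb
      simp only [Finset.mem_insert, Finset.mem_singleton] at this
      rcases this with h | h
      · exact hvb h.symm
      · exact hab h.symm
  · rw [Finset.card_pair n1]
    have hsub : {e : Finset Γ.faces | e ∈ (sd Γ).faces ∧ e.card = 2 ∧ ∃ u ∈ ({pv, pva} :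
        Finset Γ.faces), u ∈ e} ⊆
        (({{pv, pva}, {pv, pvb}, {pv, t}, {pva, pa}, {pva, t}} :
          Finset (Finset Γ.faces)) : Set (Finset Γ.faces)) := by
      rintro e ⟨⟨-, hch⟩, he2, u, hu, hue⟩
      obtain ⟨w, hw⟩ : ∃ w, e = {u, w} ∧ u ≠ w := by
        have h1 : (e.erase u).card = 1 := by rw [Finset.card_erase_of_mem hue, he2]
        obtain ⟨w, hw⟩ := Finset.card_eq_one.1 h1
        refine ⟨w, ?_, ?_⟩
        · rw [← hw, Finset.insert_erase hue]
        · rintro rfl
          have : u ∈ e.erase u := by rw [hw]; simp
          simp at this
      obtain ⟨rfl, huw⟩ := hw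
      have hc := hch u (by simp) w (by simp)
      simp only [Finset.mem_insert, Finset.mem_singleton] at hu
      simp only [Finset.coe_insert, Finset.coe_singleton, Set.mem_insert_iff,
        Set.mem_singleton_iff]
      have hw0 : (w : Finset V).Nonempty := (Γ.isRelLowerSet_faces w.2).1
      rcases hu with rfl | rfl
      · have hvw : v ∈ (w : Finset V) := by
          rcases hc with h | h
          · exact h (Finset.mem_singleton_self v)
          · rcases Finset.subset_singleton_iff.1 h with h1 | h1
            · exact absurd h1 hw0.ne_empty
            · rw [h1]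
              exact Finset.mem_singleton_self v
        rcases sub_cases (hfree _ w.2 hvw) hvw with h | h | h | h
        · exact absurd (Subtype.ext h.symm) huw
        · left
          rw [show w = pva from Subtype.ext h]
        · right; left
          rw [show w = pvb from Subtype.ext h]
        · right; right; left
          rw [show w = t from Subtype.ext h]
      · rcases hc with h | h
        · have hvw : v ∈ (w : Finset V) := h (show v ∈ ({v, a} : Finset V) by simp)
          have haw : a ∈ (w : Finset V) := h (show a ∈ ({v, a} : Finset V) by simp)
          rcases sub_cases (hfree _ w.2 hvw) hvw with h | h | h | h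
          · rw [h, Finset.mem_singleton] at haw
            exact absurd haw.symm hva
          · exact absurd (Subtype.ext h.symm) huw
          · rw [h] at haw
            simp only [Finset.mem_insert, Finset.mem_singleton] at haw
            rcases haw with h2 | h2
            · exact absurd h2.symm hva
            · exact absurd h2 hab
          · right; right; right; right
            rw [show w = t from Subtype.ext h]
        · rcases sub_pair h hw0 with h | h | h
          · left
            rw [show w = pv from Subtype.ext h, Finset.pair_comm]
          · right; right; right; left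
            rw [show w = pa from Subtype.ext h]
          · exact absurd (Subtype.ext h.symm) huw
    have h1 := Set.ncard_le_ncard hsub (Finset.finite_toSet _)
    rw [Set.ncard_coe_finset] at h1
    have h2 : ({{pv, pva}, {pv, pvb}, {pv, t}, {pva, pa}, {pva, t}} :
        Finset (Finset Γ.faces)).card ≤ 5 := Finset.card_le_five
    unfold edgesMeeting
    omega

end Pool.Agent.Y98.SD
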