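import Pool.Agent.Results.MP_28b0d6_al.SubdivisionFailsWLP

/-!
# Sparse sets of vertices and the weak Lefschetz property
-/

set_option autoImplicit false

open MvPolynomial RingTheory.Sequence Pool.Agent.Results.MP_28b0d6_al.SubdivisionFailsWLP

namespace Pool.Agent.Y98.SD

/-- The number of edges (faces with two elements) of `Δ` which contain an element of `U`. -/
noncomputable def edgesMeeting {σ : Type*} (Δ : AbstractSimplicialComplex σ) (U : Finset σ) : ℕ :=
  {s : Finset σ | s ∈ Δ.faces ∧ s.card = 2 ∧ ∃ u ∈ U, u ∈ s}.ncard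

/-- The number of edges (faces with two elements) of `Δ`. -/
noncomputable def edges {σ : Type*} (Δ : AbstractSimplicialComplex σ) : ℕ :=
  {s : Finset σ | s ∈ Δ.faces ∧ s.card = 2}.ncard

section Expo

variable {σ : Type*} [DecidableEq σ]

/-- The exponent of the monomial of degree two with support `s`. -/
noncomputable def expo (s : Finset σ) : σ →₀ ℕ :=
  (if s.card = 1 then 2 else 1) • ∑ v ∈ s, Finsupp.single v 1

theorem expo_pair (u w : σ) :
    expo ({u, w} : Finset σ) = Finsupp.single u 1 + Finsupp.single w 1 := by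
  unfold expo
  by_cases h : u = w
  · subst h
    simp [two_smul, ← Finsupp.single_add]
  · rw [Finset.card_pair h, Finset.sum_pair h]
    simp

theorem exists_pair {s : Finset σ} (h0 : s.Nonempty) (h2 : s.card ≤ 2) :
    ∃ u w, s = {u, w} := by
  have h1 := Finset.card_pos.2 h0
  rcases (by omega : s.card = 1 ∨ s.card = 2) with h | h
  · obtain ⟨u, rfl⟩ := Finset.card_eq_one.1 h
    exact ⟨u, u, by simp⟩
  · obtain ⟨u, w, -, rfl⟩ := Finset.card_eq_two.1 h
    exact ⟨u, w, rfl⟩

theorem support_pair (u w : σ) :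
    (Finsupp.single u 1 + Finsupp.single w 1 : σ →₀ ℕ).support = {u, w} := by
  ext x
  rw [Finsupp.mem_support_iff, Finsupp.add_apply, Finsupp.single_apply, Finsupp.single_apply,
    Finset.mem_insert, Finset.mem_singleton]
  by_cases h1 : u = x
  · simp [h1]
  · by_cases h2 : w = x
    · simp [h2]
    · simp [h1, h2, Ne.symm h1, Ne.symm h2]

theorem support_expo {s : Finset σ} (h0 : s.Nonempty) (h2 : s.card ≤ 2) :
    (expo s).support = s := by
  obtain ⟨u, w, rfl⟩ := exists_pair h0 h2
  rw [expo_pair, support_pair]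

end Expo

set_option linter.unusedSectionVars false

section Lin

variable {σ : Type*} {K : Type*} [Field K] [DecidableEq σ] [Fintype σ]

theorem exists_single {L : MvPolynomial σ K} (hL : L.IsHomogeneous 1) {m : σ →₀ ℕ}
    (hm : coeff m L ≠ 0) : ∃ v, m = Finsupp.single v 1 := by
  have h := hL hm
  rw [Finsupp.weight_apply] at h
  simp only [Pi.one_apply, smul_eq_mul, mul_one] at h
  exact (Finsupp.sum_eq_one_iff m).mp h

/-- The coefficients at the monomials of degree two with support in `E`. -/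
noncomputable def T (E : Set (Finset σ)) : MvPolynomial σ K →ₗ[K] (E → K) where
  toFun f := fun s => coeff (expo s.1) f
  map_add' := by intro f g; ext p; simp
  map_smul' := by intro c f; ext p; simp

theorem T_apply (E : Set (Finset σ)) (f : MvPolynomial σ K) (s : E) :
    T E f s = coeff (expo s.1) f := rfl

/-- The combinations of the products `Λ a * X u`. -/
noncomputable def comb {α β : Type*} [Fintype α] [Fintype β] (Λ : α → MvPolynomial σ K)
    (i : β → σ) : (α × β → K) →ₗ[K] MvPolynomial σ K :=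
  ∑ p : α × β, (LinearMap.proj p).smulRight (Λ p.1 * X (i p.2))

theorem comb_apply {α β : Type*} [Fintype α] [Fintype β] (Λ : α → MvPolynomial σ K)
    (i : β → σ) (x : α × β → K) : comb Λ i x = ∑ p : α × β, x p • (Λ p.1 * X (i p.2)) := by
  simp [comb]

/-- The faces with at most two elements which meet `U`. -/
def EU (Δ : AbstractSimplicialComplex σ) (U : Finset σ) : Set (Finset σ) :=
  {s | s ∈ Δ.faces ∧ s.card ≤ 2 ∧ ∃ u ∈ U, u ∈ s}

/-- The faces with at most two elements. -/
def E2 (Δ : AbstractSimplicialComplex σ) : Set (Finset σ) :=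
  {s | s ∈ Δ.faces ∧ s.card ≤ 2}

theorem card_EU (Δ : AbstractSimplicialComplex σ) (U : Finset σ) :
    (EU Δ U).ncard ≤ U.card + edgesMeeting Δ U := by
  have h1 : EU Δ U ⊆ (fun u : σ => ({u} : Finset σ)) '' U ∪
      {s : Finset σ | s ∈ Δ.faces ∧ s.card = 2 ∧ ∃ u ∈ U, u ∈ s} := by
    rintro s ⟨h1, h2, u, hu, hus⟩
    have h3 : 0 < s.card := Finset.card_pos.2 ⟨u, hus⟩
    rcases (by omega : s.card = 1 ∨ s.card = 2) with h | h
    · left
      obtain ⟨v, rfl⟩ := Finset.card_eq_one.1 h
      rw [Finset.mem_singleton] at hus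
      subst hus
      exact ⟨u, hu, rfl⟩
    · exact Or.inr ⟨h1, h, u, hu, hus⟩
  refine (Set.ncard_le_ncard h1 (Set.toFinite _)).trans ((Set.ncard_union_le _ _).trans ?_)
  refine Nat.add_le_add_right ?_ _
  refine (Set.ncard_image_le (Finset.finite_toSet U)).trans ?_
  rw [Set.ncard_coe_finset]

theorem card_E2 (Δ : AbstractSimplicialComplex σ) :
    Fintype.card σ + edges Δ ≤ (E2 Δ).ncard := by
  have h1 : Set.range (fun u : σ => ({u} : Finset σ)) ∪
      {s : Finset σ | s ∈ Δ.faces ∧ s.card = 2} ⊆ E2 Δ := by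
    rintro s (⟨u, rfl⟩ | ⟨h1, h2⟩)
    · exact ⟨Δ.singleton_mem u, by simp⟩
    · exact ⟨h1, h2.le⟩
  refine le_trans ?_ (Set.ncard_le_ncard h1 (Set.toFinite _))
  rw [Set.ncard_union_eq]
  · rw [← Set.image_univ, Set.ncard_image_of_injective _ Finset.singleton_injective,
      Set.ncard_univ, Nat.card_eq_fintype_card]
    exact le_rfl
  · rw [Set.disjoint_left]
    rintro _ ⟨u, rfl⟩ ⟨-, h2⟩
    simp at h2

/-- A combination of the products `Λ a * X u`, `u` in `U`, is in the Stanley-Reisner ideal if the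
coefficients at the faces which meet `U` are zero. -/
theorem comb_mem {Δ : AbstractSimplicialComplex σ} {U : Finset σ} {α : Type*} [Fintype α]
    {Λ : α → MvPolynomial σ K} (hΛ : ∀ a, (Λ a).IsHomogeneous 1) (x : α × U → K)
    (hx : T (EU Δ U) (comb Λ (fun u : U => (u : σ)) x) = 0) :
    comb Λ (fun u : U => (u : σ)) x ∈ srIdeal K Δ := by
  rw [mem_srIdeal]
  intro m hm
  obtain ⟨v, u, hmv⟩ : ∃ (v : σ) (u : U), m = Finsupp.single v 1 + Finsupp.single (u : σ) 1 := by
    rw [mem_support_iff, comb_apply, coeff_sum] at hm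
    obtain ⟨p, -, hp⟩ := Finset.exists_ne_zero_of_sum_ne_zero hm
    rw [coeff_smul, coeff_mul_X'] at hp
    by_cases h : (p.2 : σ) ∈ m.support
    · rw [if_pos h] at hp
      obtain ⟨v, hv⟩ := exists_single (hΛ p.1) (fun h0 => hp (by rw [h0, smul_zero]))
      refine ⟨v, p.2, ?_⟩
      rw [← hv, tsub_add_cancel_of_le]
      rw [Finsupp.single_le_iff]
      exact Nat.one_le_iff_ne_zero.2 (Finsupp.mem_support_iff.1 h)
    · rw [if_neg h, smul_zero] at hp
      exact absurd rfl hp
  have hs : m.support = {v, (u : σ)} := by rw [hmv, support_pair]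
  refine ⟨by rw [hs]; simp, fun hF => ?_⟩
  rw [hs] at hF
  have h1 := congrFun hx ⟨{v, (u : σ)}, hF, Finset.card_le_two, u, u.2, by simp⟩
  rw [T_apply] at h1
  simp only [expo_pair, ← hmv, Pi.zero_apply] at h1
  exact (mem_support_iff.1 hm) h1

/-- There is a nonzero combination in the Stanley-Reisner ideal. -/
theorem exists_comb {Δ : AbstractSimplicialComplex σ} {U : Finset σ} {α : Type*} [Fintype α]
    {Λ : α → MvPolynomial σ K} (hΛ : ∀ a, (Λ a).IsHomogeneous 1)
    (hU : U.card + edgesMeeting Δ U < Fintype.card α * U.card) :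
    ∃ x : α × U → K, x ≠ 0 ∧ comb Λ (fun u : U => (u : σ)) x ∈ srIdeal K Δ := by
  classical
  have : Fintype (EU Δ U) := Fintype.ofFinite _
  have hker : LinearMap.ker ((T (EU Δ U)).comp (comb Λ (fun u : U => (u : σ)))) ≠ ⊥ := by
    apply LinearMap.ker_ne_bot_of_finrank_lt
    rw [Module.finrank_fintype_fun_eq_card, Module.finrank_fintype_fun_eq_card,
      Fintype.card_prod, Fintype.card_coe, ← Nat.card_eq_fintype_card, Nat.card_coe_set_eq]
    exact (card_EU Δ U).trans_lt hU
  obtain ⟨x, hx, hx0⟩ := Submodule.exists_mem_ne_zero_of_ne_bot hker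
  exact ⟨x, hx0, comb_mem hΛ x hx⟩

theorem comb_eq {U : Finset σ} {α : Type*} [Fintype α] (Λ : α → MvPolynomial σ K)
    (x : α × U → K) : comb Λ (fun u : U => (u : σ)) x =
      ∑ a, Λ a * ∑ u : U, C (x (a, u)) * X (u : σ) := by
  rw [comb_apply, Fintype.sum_prod_type]
  refine Finset.sum_congr rfl fun a _ => ?_
  rw [Finset.mul_sum]
  refine Finset.sum_congr rfl fun u _ => ?_
  rw [smul_eq_C_mul]
  ring

/-- A linear form with support in `U` is not in the ideal if some facet does not meet `U`. -/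
theorem zero_of_mem {Δ : AbstractSimplicialComplex σ} {d : ℕ} {Θ : Fin d → MvPolynomial σ K}
    (hΘ : IsLSOP K Δ Θ) {U F : Finset σ} (hF : F ∈ Δ.faces) (hc : F.card = d)
    (hd : Disjoint F U) (y : U → K)
    (hy : ∑ u : U, C (y u) * X (u : σ) ∈ srIdeal K Δ ⊔ Ideal.span (Set.range Θ)) : y = 0 := by
  set Y : MvPolynomial σ K := ∑ u : U, C (y u) * X (u : σ) with hY
  obtain ⟨g, hg, g', hg', hgg⟩ := Submodule.mem_sup.mp hy
  obtain ⟨h, rfl⟩ := (Ideal.mem_span_range_iff_exists_fun).mp hg'
  have hco : ∀ v : σ, coeff (Finsupp.single v 1) Y = ∑ i, coeff 0 (h i) * lc (Θ i) v := by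
    intro v
    rw [← hgg, coeff_add, coeff_sum]
    have h1 : coeff (Finsupp.single v 1) g = 0 := by
      by_contra hne
      obtain ⟨_, h2⟩ := mem_srIdeal.mp hg _ (mem_support_iff.mpr hne)
      apply h2
      rw [Finsupp.support_single _ one_ne_zero]
      exact Δ.singleton_mem v
    rw [h1, zero_add]
    exact Finset.sum_congr rfl (fun i _ => coeff_single_mul_linear _ _ (hΘ.linear i) v)
  have hYv : ∀ v : σ, coeff (Finsupp.single v 1) Y = ∑ u : U, if (u : σ) = v then y u else 0 := by
    intro v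
    rw [hY, coeff_sum]
    refine Finset.sum_congr rfl fun u _ => ?_
    rw [coeff_C_mul, coeff_X]
    simp only [Finsupp.single_left_inj one_ne_zero]
    simp
  have ht : (fun i => coeff 0 (h i)) = 0 := by
    refine row_indep hΘ hF hc _ (fun v hv => ?_)
    rw [← hco v, hYv v]
    refine Finset.sum_eq_zero fun u _ => ?_
    rw [if_neg]
    rintro rfl
    exact Finset.disjoint_left.1 hd hv u.2
  ext u
  have h1 := hYv u
  rw [hco, Finset.sum_eq_single u] at h1
  · rw [if_pos rfl] at h1
    rw [← h1]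
    refine Finset.sum_eq_zero (fun i _ => ?_)
    have := congrFun ht i
    simp only [Pi.zero_apply] at this
    rw [this, zero_mul]
  · intro w _ hw
    rw [if_neg]
    exact fun h => hw (Subtype.ext h)
  · simp

end Lin

end Pool.Agent.Y98.SD
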