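import Pool.Agent.Y98.SD.Free
import Pool.Agent.Y98.SD.FVec

/-!
# Subcomplexes
-/

set_option autoImplicit false
set_option linter.unusedSectionVars false

open Pool.Agent.Results.MP_28b0d6_al.SubdivisionFailsWLP

namespace Pool.Agent.Y98.SD

/-- The set `D` of faces of `Γ` is the set of faces of a subcomplex: it is closed under passing to
nonempty subsets. -/
def IsSub {V : Type*} (Γ : AbstractSimplicialComplex V) (D : Set (Finset V)) : Prop :=
  D ⊆ Γ.faces ∧ ∀ s ∈ D, ∀ t ⊆ s, t.Nonempty → t ∈ D

/-- The number of faces of `Γ` of dimension `i` which are not in `D`. -/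
noncomputable def outside {V : Type*} (Γ : AbstractSimplicialComplex V) (D : Set (Finset V))
    (i : ℕ) : ℕ :=
  {s : Finset V | s ∈ Γ.faces ∧ s ∉ D ∧ s.card = i + 1}.ncard

variable {V : Type*} [DecidableEq V] {Γ : AbstractSimplicialComplex V} [Fintype Γ.faces]

open Classical in
/-- The faces which are not in `D`. -/
noncomputable def compl (Γ : AbstractSimplicialComplex V) [Fintype Γ.faces]
    (D : Set (Finset V)) : Finset Γ.faces :=
  Finset.univ.filter fun F : Γ.faces => (F : Finset V) ∉ D

theorem mem_compl {D : Set (Finset V)} {F : Γ.faces} :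
    F ∈ compl Γ D ↔ (F : Finset V) ∉ D := by
  simp [compl]

theorem outside_eq (D : Set (Finset V)) (i : ℕ) :
    outside Γ D i = ∑ F ∈ compl Γ D, if (F : Finset V).card = i + 1 then 1 else 0 := by
  classical
  have h1 : {s : Finset V | s ∈ Γ.faces ∧ s ∉ D ∧ s.card = i + 1} = Subtype.val ''
      (((compl Γ D).filter fun F : Γ.faces => (F : Finset V).card = i + 1 :
        Finset Γ.faces) : Set Γ.faces) := by
    ext s
    constructor
    · rintro ⟨h1, h2, h3⟩
      exact ⟨⟨s, h1⟩, Finset.mem_coe.2 (Finset.mem_filter.2 ⟨mem_compl.2 h2, h3⟩), rfl⟩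
    · rintro ⟨F, h1, rfl⟩
      obtain ⟨h2, h3⟩ := Finset.mem_filter.1 (Finset.mem_coe.1 h1)
      exact ⟨F.2, mem_compl.1 h2, h3⟩
  rw [outside, h1, Set.ncard_image_of_injective _ Subtype.val_injective, Set.ncard_coe_finset,
    Finset.card_filter]

theorem edgesMeeting_compl {D : Set (Finset V)} (hD : IsSub Γ D) :
    edgesMeeting (sd Γ) (compl Γ D) ≤ ∑ F ∈ compl Γ D, (2 ^ (F : Finset V).card - 2) := by
  classical
  have h1 : ((compl Γ D).sigma fun F : Γ.faces => proper F).card =
      ∑ F ∈ compl Γ D, (2 ^ (F : Finset V).card - 2) := by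
    rw [Finset.card_sigma]
    exact Finset.sum_congr rfl fun F _ => card_proper F
  rw [← h1]
  refine le_trans ?_ (Finset.card_image_le
    (f := fun p : (_ : Γ.faces) × Γ.faces => ({p.2, p.1} : Finset Γ.faces)))
  rw [← Set.ncard_coe_finset]
  refine Set.ncard_le_ncard ?_ (Finset.finite_toSet _)
  rintro e ⟨⟨-, hch⟩, he2, u, hu, hue⟩
  obtain ⟨x, y, hxy, rfl⟩ := Finset.card_eq_two.1 he2
  have key : ∀ G F : Γ.faces, G ≠ F → (G : Finset V) ⊆ F → (F ∈ compl Γ D ∨ G ∈ compl Γ D) →
      ({G, F} : Finset Γ.faces) ∈ ((((compl Γ D).sigma fun F : Γ.faces => proper F).image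
        (fun p : (_ : Γ.faces) × Γ.faces => ({p.2, p.1} : Finset Γ.faces)) :
          Finset (Finset Γ.faces)) : Set (Finset Γ.faces)) := by
    intro G F hne hGF hor
    have hF : F ∈ compl Γ D := by
      rcases hor with h | h
      · exact h
      · rw [mem_compl] at h ⊢
        exact fun hF => h (hD.2 _ hF _ hGF (Γ.isRelLowerSet_faces G.2).1)
    refine Finset.mem_coe.2 (Finset.mem_image.2 ⟨⟨F, G⟩, ?_, rfl⟩)
    refine Finset.mem_sigma.2 ⟨hF, Finset.mem_filter.2 ⟨Finset.mem_univ _, ?_⟩⟩
    exact hGF.ssubset_of_ne fun h => hne (Subtype.ext h)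
  have hor : x ∈ compl Γ D ∨ y ∈ compl Γ D := by
    simp only [Finset.mem_insert, Finset.mem_singleton] at hue
    rcases hue with rfl | rfl
    · exact Or.inl hu
    · exact Or.inr hu
  rcases hch x (by simp) y (by simp) with h | h
  · exact key x y hxy h hor.symm
  · rw [Finset.pair_comm]
    exact key y x hxy.symm h hor

/-- The complement of a subcomplex is sparse if `3 g₂ < 3 g₀ + g₁`. -/
theorem sparse_compl (hd : ∀ s ∈ Γ.faces, s.card ≤ 3) {D : Set (Finset V)} (hD : IsSub Γ D)
    (h : 3 * outside Γ D 2 < 3 * outside Γ D 0 + outside Γ D 1) :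
    edgesMeeting (sd Γ) (compl Γ D) < 3 * (compl Γ D).card := by
  have h1 := edgesMeeting_compl hD
  have hc : ∀ F : Γ.faces, (F : Finset V).card = 1 ∨ (F : Finset V).card = 2 ∨
      (F : Finset V).card = 3 := by
    intro F
    have h2 := hd _ F.2
    have h3 := Finset.card_pos.2 (Γ.isRelLowerSet_faces F.2).1
    omega
  have h2 : ∑ F ∈ compl Γ D, (2 ^ (F : Finset V).card - 2) ≤
      2 * outside Γ D 1 + 6 * outside Γ D 2 := by
    rw [outside_eq, outside_eq, Finset.mul_sum, Finset.mul_sum, ← Finset.sum_add_distrib]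
    refine Finset.sum_le_sum fun F _ => ?_
    rcases hc F with h | h | h <;> simp [h]
  have h3 : outside Γ D 0 + outside Γ D 1 + outside Γ D 2 ≤ (compl Γ D).card := by
    rw [outside_eq, outside_eq, outside_eq, ← Finset.sum_add_distrib, ← Finset.sum_add_distrib,
      Finset.card_eq_sum_ones]
    refine Finset.sum_le_sum fun F _ => ?_
    rcases hc F with h | h | h <;> simp [h]
  omega

/-- A triangle of the subcomplex gives a facet of the subdivision. -/
theorem exists_flag {D : Set (Finset V)} (hD : IsSub Γ D) (h : ∃ s ∈ D, s.card = 3) :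
    ∃ F ∈ (sd Γ).faces, F.card = 3 ∧ Disjoint F (compl Γ D) := by
  classical
  obtain ⟨s, hs, hc⟩ := h
  obtain ⟨a, b, c, hab, hac, hbc, rfl⟩ := Finset.card_eq_three.1 hc
  have m1 : ({a} : Finset V) ∈ D := hD.2 _ hs _ (by simp) (by simp)
  have m2 : ({a, b} : Finset V) ∈ D := hD.2 _ hs _ (by
    intro x hx; simp only [Finset.mem_insert, Finset.mem_singleton] at hx ⊢; tauto) (by simp)
  let p : Γ.faces := ⟨{a}, hD.1 m1⟩
  let q : Γ.faces := ⟨{a, b}, hD.1 m2⟩
  let r : Γ.faces := ⟨{a, b, c}, hD.1 hs⟩
  have cq : ({a, b} : Finset V).card = 2 := Finset.card_pair hab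
  have s1 : (p : Finset V) ⊆ q := by
    show ({a} : Finset V) ⊆ {a, b}
    simp
  have s2 : (q : Finset V) ⊆ r := by
    show ({a, b} : Finset V) ⊆ {a, b, c}
    intro x hx; simp only [Finset.mem_insert, Finset.mem_singleton] at hx ⊢; tauto
  refine ⟨{p, q, r}, ⟨by simp, ?_⟩, ?_, ?_⟩
  · intro x hx y hy
    simp only [Finset.mem_insert, Finset.mem_singleton] at hx hy
    rcases hx with rfl | rfl | rfl <;> rcases hy with rfl | rfl | rfl
    · exact Or.inl (Finset.Subset.refl _)
    · exact Or.inl s1
    · exact Or.inl (s1.trans s2)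
    · exact Or.inr s1
    · exact Or.inl (Finset.Subset.refl _)
    · exact Or.inl s2
    · exact Or.inr (s1.trans s2)
    · exact Or.inr s2
    · exact Or.inl (Finset.Subset.refl _)
  · rw [Finset.card_eq_three]
    refine ⟨p, q, r, ?_, ?_, ?_, rfl⟩
    · intro h
      have := congrArg (fun z : Γ.faces => (z : Finset V).card) h
      simp only [p, q, cq, Finset.card_singleton] at this
      omega
    · intro h
      have := congrArg (fun z : Γ.faces => (z : Finset V).card) h
      simp only [p, r, hc, Finset.card_singleton] at this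
      omega
    · intro h
      have := congrArg (fun z : Γ.faces => (z : Finset V).card) h
      simp only [q, r, cq, hc] at this
      omega
  · rw [Finset.disjoint_left]
    intro x hx hx'
    rw [mem_compl] at hx'
    simp only [Finset.mem_insert, Finset.mem_singleton] at hx
    rcases hx with rfl | rfl | rfl
    · exact hx' m1
    · exact hx' m2
    · exact hx' hs

end Pool.Agent.Y98.SD
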