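import Pool.Agent.Y98.SD.Two

/-!
# Two-dimensional complexes with a sparse set of vertices
-/

set_option autoImplicit false
set_option linter.unusedSectionVars false

open MvPolynomial RingTheory.Sequence Pool.Agent.Results.MP_28b0d6_al.SubdivisionFailsWLP

namespace Pool.Agent.Y98.SD

variable {σ : Type*} {K : Type*} [Field K] [DecidableEq σ] [Fintype σ]

theorem not_inj3 {Δ : AbstractSimplicialComplex σ} (hCM : IsCohenMacaulay K Δ 3) {U F : Finset σ}
    (hF : F ∈ Δ.faces) (hc : F.card = 3) (hd : Disjoint F U)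
    (he : edgesMeeting Δ U < 3 * U.card) {Θ : Fin 3 → MvPolynomial σ K} (hΘ : IsLSOP K Δ Θ)
    {ℓ : MvPolynomial σ K} (hℓ : ℓ.IsHomogeneous 1) :
    ∃ y : MvPolynomial σ K, y.IsHomogeneous 1 ∧
      ℓ * y ∈ srIdeal K Δ ⊔ Ideal.span (Set.range Θ) ∧
      y ∉ srIdeal K Δ ⊔ Ideal.span (Set.range Θ) := by
  let Λ : Fin 4 → MvPolynomial σ K := Fin.cons ℓ Θ
  have hΛ : ∀ a, (Λ a).IsHomogeneous 1 := by
    intro a
    refine Fin.cases ?_ ?_ a
    · exact hℓ
    · exact hΘ.linear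
  obtain ⟨x, hx0, hx⟩ := exists_comb (Δ := Δ) (U := U) hΛ (by
    rw [Fintype.card_fin]
    omega)
  rw [comb_eq, Fin.sum_univ_succ] at hx
  let Y : Fin 4 → MvPolynomial σ K := fun a => ∑ u : U, C (x (a, u)) * X (u : σ)
  have hx' : ℓ * Y 0 + ∑ i : Fin 3, Θ i * Y i.succ ∈ srIdeal K Δ := hx
  refine ⟨Y 0, ?_, ?_, ?_⟩
  · refine IsHomogeneous.sum _ _ _ fun u _ => ?_
    simpa using (isHomogeneous_C _ (x (0, u))).mul (isHomogeneous_X K (u : σ))
  · have e : ℓ * Y 0 = (ℓ * Y 0 + ∑ i : Fin 3, Θ i * Y i.succ) -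
        ∑ i : Fin 3, Θ i * Y i.succ := by ring
    rw [e]
    refine Submodule.sub_mem _ (Ideal.mem_sup_left hx') (Ideal.mem_sup_right ?_)
    exact Ideal.sum_mem _ (fun i _ => Ideal.mul_mem_right _ _ (Ideal.subset_span ⟨i, rfl⟩))
  · intro hmem
    have h0 := zero_of_mem hΘ hF hc hd (fun u => x (0, u)) hmem
    have hY0 : Y 0 = 0 := by
      refine Finset.sum_eq_zero fun u _ => ?_
      have := congrFun h0 u
      simp only [Pi.zero_apply] at this
      rw [this, C_0, zero_mul]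
    rw [hY0, mul_zero, zero_add] at hx'
    have h1 := syz (hCM.2.2 Θ hΘ).toIsWeaklyRegular 3 le_rfl (fun i => Y i.succ)
      (fun j hj => absurd j.2 (by omega)) hx'
    apply hx0
    ext ⟨a, u⟩
    refine Fin.cases ?_ (fun i => ?_) a
    · exact congrFun h0 u
    · exact congrFun (zero_of_mem hΘ hF hc hd (fun u => x (i.succ, u)) (h1 i)) u

theorem not_surj3 {Δ : AbstractSimplicialComplex σ} {F : Finset σ}
    (hF : F ∈ Δ.faces) (hc : F.card = 3)
    (hh : 3 * Fintype.card σ < edges Δ + 6) {Θ : Fin 3 → MvPolynomial σ K}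
    (hΘ : IsLSOP K Δ Θ) {ℓ : MvPolynomial σ K} (hℓ : ℓ.IsHomogeneous 1)
    (hs : ∀ b : MvPolynomial σ K, b.IsHomogeneous 2 → ∃ a : MvPolynomial σ K,
      ℓ * a - b ∈ srIdeal K Δ ⊔ Ideal.span (Set.range Θ)) : False := by
  have hf0 : 3 ≤ Fintype.card σ := by
    rw [← hc]
    exact Finset.card_le_univ F
  have hP4 : Fintype.card {p : Fin 4 × Fin 4 // p.1 < p.2} = 6 := by decide
  have hP3 : Fintype.card {p : Fin 3 × Fin 3 // p.1 < p.2} = 3 := by decide
  have hli3 : LinearIndependent K (fun i => lc (Θ i)) := by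
    rw [Fintype.linearIndependent_iff]
    intro t ht i
    refine congrFun (row_indep hΘ hF hc t fun v _ => ?_) i
    have := congrFun ht v
    rw [Finset.sum_apply] at this
    exact this
  by_cases hli : LinearIndependent K (fun a : Fin 4 =>
      lc ((Fin.cons ℓ Θ : Fin 4 → MvPolynomial σ K) a))
  · have h := count (Δ := Δ) (Λ := (Fin.cons ℓ Θ : Fin 4 → MvPolynomial σ K)) (by
      intro a
      refine Fin.cases ?_ ?_ a
      · exact hℓ
      · exact hΘ.linear) hli (by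
      intro b hb
      obtain ⟨a, ha⟩ := hs b hb
      obtain ⟨i, hi, g, hg, hig⟩ := Submodule.mem_sup.mp ha
      obtain ⟨h, rfl⟩ := (Ideal.mem_span_range_iff_exists_fun).mp hg
      refine ⟨Fin.cons a (fun j => - h j), ?_⟩
      rw [Fin.sum_univ_succ]
      simp only [Fin.cons_zero, Fin.cons_succ]
      have h1 : b - (a * ℓ + ∑ j, - h j * Θ j) = - i := by
        simp only [neg_mul, Finset.sum_neg_distrib]
        linear_combination hig
      rw [h1]
      exact neg_mem hi)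
    rw [hP4] at h
    omega
  · have hspan : lc ℓ ∈ Submodule.span K (Set.range fun i => lc (Θ i)) := by
      by_contra hcon
      apply hli
      have h1 : (fun a : Fin 4 => lc ((Fin.cons ℓ Θ : Fin 4 → MvPolynomial σ K) a)) =
          Fin.cons (lc ℓ) (fun i => lc (Θ i)) := by
        ext a v
        refine Fin.cases ?_ (fun i => ?_) a
        · rfl
        · rfl
      rw [h1, linearIndependent_finCons]
      exact ⟨hli3, hcon⟩
    obtain ⟨c, hcc⟩ := (Submodule.mem_span_range_iff_exists_fun K).1 hspan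
    have hℓΘ : ℓ = ∑ i, C (c i) * Θ i := by
      have h1 : ℓ = ∑ v, C (lc ℓ v) * X v := lin_eq hℓ
      rw [h1, ← hcc]
      have h2 : ∀ v, C ((∑ i, c i • lc (Θ i)) v) * X v =
          (∑ i, C (c i) * (C (lc (Θ i) v) * X v) : MvPolynomial σ K) := by
        intro v
        rw [Finset.sum_apply, map_sum, Finset.sum_mul]
        refine Finset.sum_congr rfl fun i _ => ?_
        rw [Pi.smul_apply, smul_eq_mul, C_mul, mul_assoc]
      simp only [h2]
      rw [Finset.sum_comm]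
      refine Finset.sum_congr rfl fun i _ => ?_
      conv_rhs => rw [lin_eq (hΘ.linear i)]
      rw [Finset.mul_sum]
      rfl
    have hmem : ℓ ∈ Ideal.span (Set.range Θ) := by
      rw [hℓΘ]
      exact Ideal.sum_mem _ fun i _ => Ideal.mul_mem_left _ _ (Ideal.subset_span ⟨i, rfl⟩)
    have h := count (Δ := Δ) (Λ := Θ) hΘ.linear hli3 (by
      intro b hb
      obtain ⟨a, ha⟩ := hs b hb
      have hb2 : b ∈ srIdeal K Δ ⊔ Ideal.span (Set.range Θ) := by
        have h1 : b = ℓ * a - (ℓ * a - b) := by ring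
        rw [h1]
        exact Ideal.sub_mem _ (Ideal.mem_sup_right (Ideal.mul_mem_right _ _ hmem)) ha
      obtain ⟨i, hi, g, hg, hig⟩ := Submodule.mem_sup.mp hb2
      obtain ⟨h, rfl⟩ := (Ideal.mem_span_range_iff_exists_fun).mp hg
      refine ⟨h, ?_⟩
      have h1 : b - ∑ j, h j * Θ j = i := by
        rw [← hig]
        ring
      rw [h1]
      exact hi)
    rw [hP3] at h
    omega

/-- **The criterion.** -/
theorem criterion {Δ : AbstractSimplicialComplex σ} (hCM : IsCohenMacaulay K Δ 3) {U F : Finset σ}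
    (hF : F ∈ Δ.faces) (hc : F.card = 3) (hd : Disjoint F U)
    (he : edgesMeeting Δ U < 3 * U.card) (hh : 3 * Fintype.card σ < edges Δ + 6)
    {Θ : Fin 3 → MvPolynomial σ K} (hΘ : IsLSOP K Δ Θ) :
    ¬ HasWLP (srIdeal K Δ ⊔ Ideal.span (Set.range Θ)) := by
  rintro ⟨_, ⟨ℓ, hℓ, rfl⟩, hall⟩
  have hℓ' : ℓ.IsHomogeneous 1 := (mem_homogeneousSubmodule 1 ℓ).mp hℓ
  rcases hall 1 with hinj | hsurj
  · obtain ⟨y, hy1, hy2, hy3⟩ := not_inj3 hCM hF hc hd he hΘ hℓ'
    apply hy3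
    rw [← Ideal.Quotient.eq_zero_iff_mem]
    refine hinj _ ⟨y, (mem_homogeneousSubmodule 1 y).mpr hy1, rfl⟩ ?_
    rw [← Ideal.Quotient.eq_zero_iff_mem, map_mul] at hy2
    exact hy2
  · refine not_surj3 hF hc hh hΘ hℓ' (fun b hb => ?_)
    obtain ⟨_, ⟨a, _, rfl⟩, ha⟩ := hsurj (Ideal.Quotient.mk _ b)
      ⟨b, (mem_homogeneousSubmodule 2 b).mpr hb, rfl⟩
    refine ⟨a, ?_⟩
    rw [← Ideal.Quotient.eq, map_mul]
    exact ha

end Pool.Agent.Y98.SD
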