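import Pool.Agent.Y98.SD.Main

/-!
# Syzygies of a regular sequence of linear forms, and the count of surjectivity
-/

set_option autoImplicit false
set_option linter.unusedSectionVars false

open MvPolynomial RingTheory.Sequence Pool.Agent.Results.MP_28b0d6_al.SubdivisionFailsWLP

namespace Pool.Agent.Y98.SD

section Syz

variable {R : Type*} [CommRing R] {d : ℕ}

theorem mem_take {Θ : Fin d → R} {n : ℕ} {f : R}
    (hf : f ∈ Ideal.ofList ((List.ofFn Θ).take n)) :
    ∃ N : Fin d → R, (∀ j : Fin d, n ≤ j → N j = 0) ∧ f = ∑ j, Θ j * N j := by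
  classical
  have h1 : {r | r ∈ (List.ofFn Θ).take n} ⊆
      Set.range (fun j : {j : Fin d // (j : ℕ) < n} => Θ j) := by
    intro r hr
    obtain ⟨j, hj, rfl⟩ := List.mem_take_iff_getElem.1 hr
    rw [List.length_ofFn] at hj
    refine ⟨⟨⟨j, by omega⟩, by show j < n; omega⟩, ?_⟩
    simp
  obtain ⟨c, hc⟩ := (Ideal.mem_span_range_iff_exists_fun).1 (Ideal.span_mono h1 hf)
  refine ⟨fun j => if h : (j : ℕ) < n then c ⟨j, h⟩ else 0, fun j hj => dif_neg (by omega), ?_⟩
  rw [← hc]
  have h2 : ∀ j : Fin d, Θ j * (if h : (j : ℕ) < n then c ⟨j, h⟩ else 0) =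
      if h : (j : ℕ) < n then c ⟨j, h⟩ * Θ j else 0 := by
    intro j
    split_ifs
    · ring
    · ring
  simp only [h2]
  rw [Finset.sum_dite, Finset.sum_const_zero, add_zero]
  refine Finset.sum_bij' (fun x _ => ⟨x.1, Finset.mem_filter.2 ⟨Finset.mem_univ _, x.2⟩⟩)
    (fun x _ => ⟨x.1, (Finset.mem_filter.1 x.2).2⟩) ?_ ?_ ?_ ?_ ?_
  all_goals simp

theorem syz {I : Ideal R} {Θ : Fin d → R} (h : IsWeaklyRegular (R ⧸ I) (List.ofFn Θ)) :
    ∀ n ≤ d, ∀ Y : Fin d → R, (∀ j : Fin d, n ≤ j → Y j = 0) → ∑ j, Θ j * Y j ∈ I →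
      ∀ j, Y j ∈ I ⊔ Ideal.span (Set.range Θ) := by
  intro n
  induction n with
  | zero =>
    intro _ Y hY _ j
    rw [hY j (Nat.zero_le _)]
    exact Ideal.zero_mem _
  | succ n ih =>
    intro hn Y hY hs
    set m : Fin d := ⟨n, hn⟩ with hm
    have hlen : n < (List.ofFn Θ).length := by rw [List.length_ofFn]; exact hn
    have hreg := h.regular_mod_prev n hlen
    have hget : (List.ofFn Θ)[n] = Θ m := by simp [hm]
    rw [hget] at hreg
    -- membership
    have key : ∀ f : R, Submodule.Quotient.mk (p := (Ideal.ofList ((List.ofFn Θ).take n) • ⊤ :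
        Submodule R (R ⧸ I))) (Ideal.Quotient.mk I f) = 0 ↔
        f ∈ Ideal.ofList ((List.ofFn Θ).take n) ⊔ I := by
      intro f
      rw [Submodule.Quotient.mk_eq_zero, Ideal.smul_top_eq_map, Submodule.restrictScalars_mem,
        Ideal.Quotient.algebraMap_eq, Ideal.mem_quotient_iff_mem_sup]
    have hYm : Y m ∈ Ideal.ofList ((List.ofFn Θ).take n) ⊔ I := by
      rw [← key]
      apply hreg
      show Θ m • _ = Θ m • (0 : (R ⧸ I) ⧸ (Ideal.ofList ((List.ofFn Θ).take n) • ⊤ :
        Submodule R (R ⧸ I)))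
      rw [smul_zero, ← Submodule.Quotient.mk_smul]
      have h2 : Θ m • (Ideal.Quotient.mk I (Y m)) = Ideal.Quotient.mk I (Θ m * Y m) := by
        rw [map_mul]
        rfl
      rw [h2, key]
      have h3 : Θ m * Y m = - (∑ j ∈ Finset.univ.erase m, Θ j * Y j) + ∑ j, Θ j * Y j := by
        rw [← Finset.add_sum_erase _ _ (Finset.mem_univ m)]
        ring
      rw [h3]
      refine Submodule.add_mem_sup (neg_mem (Ideal.sum_mem _ fun j hj => ?_)) hs
      have hjm := Finset.ne_of_mem_erase hj
      rcases lt_or_ge (j : ℕ) n with hjn | hjn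
      · refine Ideal.mul_mem_right _ _ (Ideal.subset_span ?_)
        show Θ j ∈ (List.ofFn Θ).take n
        rw [List.mem_take_iff_getElem]
        refine ⟨j, ?_, by simp⟩
        rw [List.length_ofFn]
        exact lt_min hjn j.2
      · rw [hY j, mul_zero]
        · exact Ideal.zero_mem _
        · rcases hjn.lt_or_eq with h4 | h4
          · exact h4
          · exact absurd (Fin.ext h4.symm) hjm
    obtain ⟨a, ha, g, hg, hag⟩ := Submodule.mem_sup.1 hYm
    obtain ⟨N, hN, rfl⟩ := mem_take ha
    have hNm : ∀ j : Fin d, n ≤ j → N j = 0 := hN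
    let Y' : Fin d → R := fun j => if (j : ℕ) < n then Y j + Θ m * N j else 0
    have hY' : ∀ j, Y' j = (if j = m then 0 else Y j) + Θ m * N j := by
      intro j
      by_cases h1 : (j : ℕ) < n
      · have h2 : j ≠ m := by
          rintro rfl
          exact absurd h1 (lt_irrefl _)
        simp only [Y', if_pos h1, if_neg h2]
      · simp only [Y', if_neg h1]
        rw [hNm j (by omega), mul_zero, add_zero]
        by_cases h2 : j = m
        · rw [if_pos h2]
        · rw [if_neg h2, hY j]
          have : (j : ℕ) ≠ n := fun h3 => h2 (Fin.ext h3)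
          omega
    have hsum : ∑ j, Θ j * Y' j = ∑ j, Θ j * Y j - Θ m * g := by
      have h1 : ∀ j, Θ j * Y' j = (if j = m then 0 else Θ j * Y j) + Θ m * (Θ j * N j) := by
        intro j
        rw [hY']
        split_ifs
        · ring
        · ring
      simp only [h1]
      rw [Finset.sum_add_distrib, ← Finset.mul_sum]
      have h2 : ∑ j, (if j = m then 0 else Θ j * Y j) = ∑ j, Θ j * Y j - Θ m * Y m := by
        have h3 : ∀ j, (if j = m then 0 else Θ j * Y j) =
            Θ j * Y j - if j = m then Θ m * Y m else 0 := by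
          intro j
          split_ifs with h4
          · rw [h4, sub_self]
          · rw [sub_zero]
        simp only [h3]
        rw [Finset.sum_sub_distrib, Finset.sum_ite_eq' Finset.univ m, if_pos (Finset.mem_univ _)]
      rw [h2, ← hag]
      ring
    have hIH := ih (by omega) Y' (fun j hj => if_neg (by omega)) (by
      rw [hsum]
      exact Ideal.sub_mem _ hs (Ideal.mul_mem_left _ _ hg))
    intro j
    by_cases h1 : j = m
    · rw [h1, ← hag]
      refine add_mem (Ideal.mem_sup_right (Ideal.sum_mem _ fun i _ => ?_))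
        (Ideal.mem_sup_left hg)
      exact Ideal.mul_mem_right _ _ (Ideal.subset_span ⟨i, rfl⟩)
    · have h2 : Y j = Y' j - Θ m * N j := by
        rw [hY' j, if_neg h1]
        ring
      rw [h2]
      exact Ideal.sub_mem _ (hIH j) (Ideal.mem_sup_right
        (Ideal.mul_mem_right _ _ (Ideal.subset_span ⟨m, rfl⟩)))

end Syz

section Count

variable {σ : Type*} {K : Type*} [Field K] [DecidableEq σ] [Fintype σ]

theorem T_srIdeal {Δ : AbstractSimplicialComplex σ} {f : MvPolynomial σ K}
    (hf : f ∈ srIdeal K Δ) : T (E2 Δ) f = 0 := by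
  ext s
  rw [T_apply]
  by_contra hne
  obtain ⟨h1, h2⟩ := mem_srIdeal.mp hf _ (mem_support_iff.mpr hne)
  have h3 := s.2
  apply h2
  rw [support_expo (Δ.isRelLowerSet_faces h3.1).1 h3.2]
  exact h3.1

theorem T_mul_linear (Δ : AbstractSimplicialComplex σ) {Θ : MvPolynomial σ K}
    (hΘ : Θ.IsHomogeneous 1) (h : MvPolynomial σ K) :
    T (E2 Δ) (h * Θ) = T (E2 Δ) (linF (lc h) * Θ) := by
  ext s
  rw [T_apply, T_apply]
  obtain ⟨u, w, h1⟩ := exists_pair (Δ.isRelLowerSet_faces s.2.1).1 s.2.2
  rw [h1, expo_pair]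
  exact coeff_mul_linear _ _ hΘ _ _

theorem linF_mul (c : σ → K) (Λ : MvPolynomial σ K) :
    linF c * Λ = ∑ v, c v • (Λ * X v) := by
  rw [linF, Finset.sum_mul]
  refine Finset.sum_congr rfl fun v _ => ?_
  rw [smul_eq_C_mul]
  ring

/-- The Koszul coefficients. -/
def ks {n : ℕ} (t : {p : Fin n × Fin n // p.1 < p.2} → K) (a b : Fin n) : K :=
  if h : a < b then t ⟨(a, b), h⟩ else if h : b < a then - t ⟨(b, a), h⟩ else 0

theorem ks_swap {n : ℕ} (t : {p : Fin n × Fin n // p.1 < p.2} → K) (a b : Fin n) :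
    ks t a b + ks t b a = 0 := by
  unfold ks
  rcases lt_trichotomy a b with h | h | h
  · rw [dif_pos h, dif_neg h.not_gt, dif_pos h]
    ring
  · subst h
    simp
  · rw [dif_neg h.not_gt, dif_pos h, dif_pos h]
    ring

theorem ks_self {n : ℕ} (t : {p : Fin n × Fin n // p.1 < p.2} → K) (a : Fin n) :
    ks t a a = 0 := by
  unfold ks
  rw [dif_neg (lt_irrefl a), dif_neg (lt_irrefl a)]

theorem count {Δ : AbstractSimplicialComplex σ} {n : ℕ} {Λ : Fin n → MvPolynomial σ K}
    (hΛ : ∀ a, (Λ a).IsHomogeneous 1) (hli : LinearIndependent K fun a => lc (Λ a))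
    (hs : ∀ b : MvPolynomial σ K, b.IsHomogeneous 2 → ∃ h : Fin n → MvPolynomial σ K,
      b - ∑ a, h a * Λ a ∈ srIdeal K Δ) :
    Fintype.card σ + edges Δ + Fintype.card {p : Fin n × Fin n // p.1 < p.2} ≤
      n * Fintype.card σ := by
  classical
  have hfE : Fintype (E2 Δ) := Fintype.ofFinite _
  let Ψ : (Fin n × σ → K) →ₗ[K] (E2 Δ → K) := (T (E2 Δ)).comp (comb Λ (fun u : σ => u))
  have hΨ : ∀ c : Fin n → σ → K, Ψ (fun p => c p.1 p.2) = T (E2 Δ) (∑ a, linF (c a) * Λ a) := by
    intro c
    show T (E2 Δ) (comb Λ (fun u : σ => u) _) = _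
    rw [comb_apply, Fintype.sum_prod_type]
    simp only [linF_mul]
  have hsurj : Function.Surjective Ψ := by
    intro e
    let b : MvPolynomial σ K := ∑ s : E2 Δ, monomial (expo s.1) (e s)
    have hb : b.IsHomogeneous 2 := by
      refine IsHomogeneous.sum _ _ _ (fun s _ => ?_)
      refine isHomogeneous_monomial _ ?_
      obtain ⟨u, w, h1⟩ := exists_pair (Δ.isRelLowerSet_faces s.2.1).1 s.2.2
      rw [h1, expo_pair, map_add, Finsupp.degree_single, Finsupp.degree_single]
    have hTb : T (E2 Δ) b = e := by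
      ext s
      rw [T_apply]
      simp only [b, coeff_sum, coeff_monomial]
      rw [Finset.sum_eq_single s]
      · rw [if_pos rfl]
      · intro s' _ hne
        rw [if_neg]
        intro h
        apply hne
        apply Subtype.ext
        rw [← support_expo (Δ.isRelLowerSet_faces s.2.1).1 s.2.2,
          ← support_expo (Δ.isRelLowerSet_faces s'.2.1).1 s'.2.2, h]
      · simp
    obtain ⟨h, hh⟩ := hs b hb
    refine ⟨fun p => lc (h p.1) p.2, ?_⟩
    rw [hΨ (fun a => lc (h a)), map_sum]
    simp only [← T_mul_linear Δ (hΛ _)]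
    rw [← map_sum]
    have h1 := T_srIdeal hh
    rw [map_sub, hTb, sub_eq_zero] at h1
    exact h1.symm
  have hrange : Module.finrank K (LinearMap.range Ψ) = (E2 Δ).ncard := by
    rw [LinearMap.range_eq_top.2 hsurj, finrank_top, Module.finrank_fintype_fun_eq_card,
      ← Nat.card_eq_fintype_card, Nat.card_coe_set_eq]
  have hrn := LinearMap.finrank_range_add_finrank_ker Ψ
  rw [hrange, Module.finrank_fintype_fun_eq_card, Fintype.card_prod, Fintype.card_fin] at hrn
  -- the Koszul relations
  let J : ({p : Fin n × Fin n // p.1 < p.2} → K) →ₗ[K] (Fin n × σ → K) :=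
    { toFun := fun t p => ∑ b, ks t p.1 b * lc (Λ b) p.2
      map_add' := by
        intro t t'
        ext p
        rw [Pi.add_apply, ← Finset.sum_add_distrib]
        refine Finset.sum_congr rfl fun b _ => ?_
        rw [← add_mul]
        congr 1
        unfold ks
        split_ifs
        · rfl
        · rw [Pi.add_apply, neg_add]
        · rw [add_zero]
      map_smul' := by
        intro c t
        ext p
        rw [Pi.smul_apply, smul_eq_mul, Finset.mul_sum]
        refine Finset.sum_congr rfl fun b _ => ?_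
        rw [← mul_assoc]
        congr 1
        unfold ks
        split_ifs
        · rfl
        · rw [Pi.smul_apply, smul_eq_mul, mul_neg, RingHom.id_apply]
        · rw [mul_zero] }
  have hJk : ∀ t, J t ∈ LinearMap.ker Ψ := by
    intro t
    rw [LinearMap.mem_ker]
    show Ψ (fun p => ∑ b, ks t p.1 b * lc (Λ b) p.2) = 0
    rw [hΨ (fun a v => ∑ b, ks t a b * lc (Λ b) v)]
    have h1 : ∀ a, linF (fun v => ∑ b, ks t a b * lc (Λ b) v) = ∑ b, C (ks t a b) * Λ b := by
      intro a
      simp only [linF, map_sum, Finset.sum_mul]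
      rw [Finset.sum_comm]
      refine Finset.sum_congr rfl (fun b _ => ?_)
      conv_rhs => rw [lin_eq (hΛ b)]
      rw [Finset.mul_sum]
      refine Finset.sum_congr rfl (fun v _ => ?_)
      rw [C_mul, mul_assoc]
      rfl
    have h2 : ∑ a, linF (fun v => ∑ b, ks t a b * lc (Λ b) v) * Λ a =
        ∑ p : Fin n × Fin n, C (ks t p.1 p.2) * (Λ p.2 * Λ p.1) := by
      rw [Fintype.sum_prod_type]
      refine Finset.sum_congr rfl fun a _ => ?_
      rw [h1, Finset.sum_mul]
      refine Finset.sum_congr rfl fun b _ => ?_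
      ring
    rw [h2]
    have h3 : ∑ p : Fin n × Fin n, C (ks t p.1 p.2) * (Λ p.2 * Λ p.1) = 0 := by
      refine Finset.sum_involution (fun p _ => p.swap) ?_ ?_ (fun _ _ => Finset.mem_univ _)
        (fun _ _ => Prod.swap_swap _)
      · intro p _
        show C (ks t p.1 p.2) * (Λ p.2 * Λ p.1) + C (ks t p.2 p.1) * (Λ p.1 * Λ p.2) = 0
        have h4 : C (ks t p.1 p.2) + C (ks t p.2 p.1) = (0 : MvPolynomial σ K) := by
          rw [← C_add, ks_swap, C_0]
        linear_combination (Λ p.2 * Λ p.1) * h4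
      · intro p _ hp hp2
        apply hp
        have h4 : p.2 = p.1 := congrArg Prod.fst hp2
        rw [h4, ks_self, C_0, zero_mul]
    rw [h3, map_zero]
  have hJinj : Function.Injective (J.codRestrict (LinearMap.ker Ψ) hJk) := by
    rw [← LinearMap.ker_eq_bot, LinearMap.ker_eq_bot']
    intro t ht
    have h1 : ∀ a v, ∑ b, ks t a b * lc (Λ b) v = 0 := by
      intro a v
      exact congrFun (congrArg Subtype.val ht) (a, v)
    have h2 : ∀ a b, ks t a b = 0 := by
      intro a
      apply Fintype.linearIndependent_iff.1 hli (fun b => ks t a b)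
      ext v
      rw [Finset.sum_apply]
      exact h1 a v
    ext p
    have h3 := h2 p.1.1 p.1.2
    unfold ks at h3
    rw [dif_pos p.2] at h3
    exact h3
  have hJ := LinearMap.finrank_le_finrank_of_injective hJinj
  rw [Module.finrank_fintype_fun_eq_card] at hJ
  have := card_E2 Δ
  omega

end Count

end Pool.Agent.Y98.SD
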